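import Pool.Agent.V11276.HU12

namespace Pool.Agent.Results.MP_31dc4f_pr.ProjectedHaarDiagonal

open Finset Matrix MeasureTheory ProbabilityTheory Filter Topology

universe u

/-- `m_p(τ) = e^{-pτ} ∑_{k<p} (1 - k/p) (pτ)^k / k!` -/
noncomputable def m (p : ℕ) (τ : ℝ) : ℝ :=
  Real.exp (-(p * τ)) * ∑ k ∈ range p, (1 - (k : ℝ) / p) * (p * τ) ^ k / (k.factorial : ℝ)

/-- `μ` is the law `μ_τ`: a probability measure carried by `[0,1]` whose moments are the `m_p(τ)`, `p ≥ 1` -/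
structure IsMuTau (τ : ℝ) (μ : Measure ℝ) : Prop where
  prob : IsProbabilityMeasure μ
  supp : μ (Set.Icc (0 : ℝ) 1)ᶜ = 0
  moments : ∀ p : ℕ, 1 ≤ p → ∫ x, x ^ p ∂μ = m p τ

/-- `μ` is the Haar probability measure of `U(N)`, viewed as a measure on `N × N` complex matrices:
a probability measure carried by the unitary matrices and invariant under left multiplication by them -/
structure IsHaar {N : ℕ} (μ : Measure (Matrix (Fin N) (Fin N) ℂ)) : Prop where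
  prob : IsProbabilityMeasure μ
  unit : ∀ᵐ S ∂μ, S ∈ unitaryGroup (Fin N) ℂ
  inv : ∀ U ∈ unitaryGroup (Fin N) ℂ, μ.map (fun S => U * S) = μ

/-- `B_L = (P S_L) (P S_{L-1}) ⋯ (P S_1)`, the matrix `S_{i+1}` being `s i` -/
noncomputable def B {N : ℕ} (P : Matrix (Fin N) (Fin N) ℂ) (s : ℕ → Matrix (Fin N) (Fin N) ℂ) :
    ℕ → Matrix (Fin N) (Fin N) ℂ
  | 0 => 1
  | L + 1 => P * s L * B P s L

/-- the eigenvalues `T_1, …, T_N` of `B† B` -/
noncomputable def T {N : ℕ} (B : Matrix (Fin N) (Fin N) ℂ) : Fin N → ℝ :=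
  (isHermitian_conjTranspose_mul_self B).eigenvalues

theorem result (τ : ℝ) (_hτ : 0 < τ)
    -- for each `N` a probability space, on which the random unitaries live
    (Ω : ℕ → Type u) [∀ N, MeasurableSpace (Ω N)] (Pr : ∀ N, Measure (Ω N)) [∀ N, IsProbabilityMeasure (Pr N)]
    -- `P N` is a deterministic orthogonal projection of rank `N - 1`
    (P : ∀ N, Matrix (Fin N) (Fin N) ℂ) (hP₁ : ∀ N, 2 ≤ N → (P N)ᴴ = P N)
    (hP₂ : ∀ N, 2 ≤ N → P N * P N = P N) (hP₃ : ∀ N, 2 ≤ N → (P N).rank = N - 1)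
    -- `S N 0, S N 1, …` are independent Haar unitaries of size `N`
    (S : ∀ N, ℕ → Ω N → Matrix (Fin N) (Fin N) ℂ) (hS₁ : ∀ N, 2 ≤ N → ∀ i, Measurable (S N i))
    (hS₂ : ∀ N, 2 ≤ N → iIndepFun (S N) (Pr N)) (hS₃ : ∀ N, 2 ≤ N → ∀ i, IsHaar ((Pr N).map (S N i)))
    -- `L_N / N → τ`
    (L : ℕ → ℕ) (hL : Tendsto (fun N => (L N : ℝ) / N) atTop (𝓝 τ)) :
    (∃ μ : Measure ℝ, IsMuTau τ μ) ∧
    ∀ μ : Measure ℝ, IsMuTau τ μ → ∀ f : ℝ → ℝ, ContinuousOn f (Set.Icc 0 1) → ∀ ε : ℝ, 0 < ε →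
      Tendsto (fun N => Pr N {ω | ε <
        |(∑ k, f (T (B (P N) (fun i => S N i ω) (L N)) k)) / N - ∫ x, f x ∂μ|}) atTop (𝓝 0) := by
  have hB : ∀ (N : ℕ) (Q : Matrix (Fin N) (Fin N) ℂ) (s : ℕ → Matrix (Fin N) (Fin N) ℂ) (l : ℕ),
      B Q s l = V11276.HU.Bs Q s l := by
    intro N Q s l
    induction l with
    | zero => rfl
    | succ l ih =>
      show Q * s l * B Q s l = Q * s l * V11276.HU.Bs Q s l
      rw [ih]
  have hd : V11276.HU.Data Ω Pr P S :=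
    { prob := fun N _ => inferInstance
      proj := fun N hN => V11276.HU.proj_eq (by omega) (P N) (hP₁ N hN) (hP₂ N hN) (hP₃ N hN)
      meas := hS₁
      indep := hS₂
      haar := fun N hN i => ⟨(hS₃ N hN i).prob, (hS₃ N hN i).unit, (hS₃ N hN i).inv⟩ }
  refine ⟨?_, ?_⟩
  · obtain ⟨μ, hμ⟩ := V11276.HU.mu_exists hd τ hL
    exact ⟨μ, hμ.prob, hμ.supp, hμ.moments⟩
  · intro μ hμ f hf ε hε
    have h := V11276.HU.conv hd τ hL μ ⟨hμ.prob, hμ.supp, hμ.moments⟩ f hf ε hε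
    simp only [hB]
    exact h

end Pool.Agent.Results.MP_31dc4f_pr.ProjectedHaarDiagonal
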